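import Pool.Agent.Helper41.Curl.WContA

/-! Part of packet C-M2: mollifications converge in `L²` (given boundedness). -/

set_option autoImplicit false

open MeasureTheory Set Filter Topology Metric
open scoped ContDiff RealInnerProductSpace
open Pool.Agent.Helper38.Curl Pool.Agent.Helper94.Curl

namespace Pool.Agent.Helper41.Curl

theorem integrable_kap_smul {v : E → E} (hv : LocallyIntegrable v) {r : ℝ} (hr : 0 < r) (x : E) :
    Integrable (fun y => kap r (x - y) • v y) := by
  have hc : Continuous (fun y => kap r (x - y)) :=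
    (kap_contDiff hr).continuous.comp (continuous_const.sub continuous_id)
  have hs : HasCompactSupport (fun y => kap r (x - y)) :=
    (kap_compact hr).comp_homeomorph (Homeomorph.subLeft x)
  exact hv.integrable_smul_left_of_hasCompactSupport hc hs

theorem mol_sub {v w : E → E} (hv : LocallyIntegrable v) (hw : LocallyIntegrable w) {r : ℝ}
    (hr : 0 < r) (x : E) : mol r (fun y => v y - w y) x = mol r v x - mol r w x := by
  unfold mol
  rw [← integral_sub (integrable_kap_smul hv hr x) (integrable_kap_smul hw hr x)]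
  simp only [smul_sub]

/-- The mollification of a uniformly continuous field is uniformly close to it. -/
theorem norm_mol_sub_le {g : E → E} (hg : Continuous g) {r ϖ : ℝ} (hr : 0 < r)
    (h : ∀ x y : E, ‖y‖ < r → ‖g (x - y) - g x‖ ≤ ϖ) (x : E) : ‖mol r g x - g x‖ ≤ ϖ := by
  have hki : Integrable (kap r) :=
    (kap_contDiff hr).continuous.integrable_of_hasCompactSupport (kap_compact hr)
  have hi : Integrable (fun y => kap r y • g (x - y)) := by
    have hc : Continuous (fun y => kap r y • g (x - y)) :=
      (kap_contDiff hr).continuous.smul (hg.comp (continuous_const.sub continuous_id))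
    exact hc.integrable_of_hasCompactSupport (kap_compact hr).smul_right
  have hi2 : Integrable (fun y => kap r y • g x) := hki.smul_const _
  have h1 : mol r g x - g x = ∫ y, kap r y • (g (x - y) - g x) := by
    rw [mol_eq]
    simp only [smul_sub]
    rw [integral_sub hi hi2, integral_smul_const, integral_kap hr, one_smul]
  rw [h1]
  calc ‖∫ y, kap r y • (g (x - y) - g x)‖ ≤ ∫ y, kap r y * ϖ := by
        apply norm_integral_le_of_norm_le (hki.mul_const _)
        refine Eventually.of_forall fun y => ?_
        rw [norm_smul, Real.norm_eq_abs, abs_of_nonneg (kap_nonneg hr _)]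
        by_cases hy : r ≤ ‖y‖
        · rw [kap_eq_zero hr hy]; simp
        · exact mul_le_mul_of_nonneg_left (h x y (not_le.1 hy)) (kap_nonneg hr _)
    _ = ϖ := by rw [integral_mul_const, integral_kap hr, one_mul]

/-- Convergence of mollifications for continuous compactly supported fields. -/
theorem mol_tendsto_cont {g : E → E} (hg : Continuous g) (hs : HasCompactSupport g) :
    Tendsto (fun r => sq (fun x => mol r g x - g x)) (𝓝[>] 0) (𝓝 0) := by
  have hu : UniformContinuous g := hs.uniformContinuous_of_continuous hg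
  set S := cthickening 1 (tsupport g) with hS
  have hSm : MeasurableSet S := isClosed_cthickening.measurableSet
  have hSf : volume S < ⊤ := hs.isBounded.cthickening.measure_lt_top
  have hvan : VanOff (tsupport g) g :=
    Eventually.of_forall fun x hx => image_eq_zero_of_notMem_tsupport hx
  rw [Metric.tendsto_nhdsWithin_nhds]
  intro ε hε
  -- choose omega
  obtain ⟨ϖ, hw, hwε⟩ : ∃ ϖ : ℝ, 0 < ϖ ∧ ϖ ^ 2 * volume.real S < ε := by
    have hp : 0 < volume.real S + 1 := by positivity
    refine ⟨√(ε / (volume.real S + 1)), by positivity, ?_⟩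
    rw [Real.sq_sqrt (by positivity), div_mul_eq_mul_div, div_lt_iff₀ hp]
    nlinarith
  obtain ⟨δ, hδ, hδϖ⟩ := Metric.uniformContinuous_iff.1 hu ϖ hw
  refine ⟨min δ 1, by positivity, fun r hr hrd => ?_⟩
  have hr0 : 0 < r := hr
  rw [Real.dist_eq, sub_zero, abs_of_pos hr0] at hrd
  have hrδ : r < δ := hrd.trans_le (min_le_left _ _)
  have hr1 : r ≤ 1 := (hrd.trans_le (min_le_right _ _)).le
  have h1 : ∀ x, ‖mol r g x - g x‖ ≤ ϖ := by
    apply norm_mol_sub_le hg hr0
    intro x y hy
    rw [← dist_eq_norm]
    apply (hδϖ _).le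
    rw [dist_eq_norm]
    simpa using hy.trans hrδ
  have h2 : ∀ x, x ∉ S → mol r g x - g x = 0 := by
    intro x hx
    have hx1 : x ∉ cthickening r (tsupport g) := fun h => hx (cthickening_mono hr1 _ h)
    have hx2 : x ∉ tsupport g := fun h => hx (self_subset_cthickening _ h)
    rw [mol_van hvan hr0 hx1, image_eq_zero_of_notMem_tsupport hx2, sub_zero]
  rw [Real.dist_eq, sub_zero, abs_of_nonneg (sq_nonneg' _)]
  refine lt_of_le_of_lt ?_ hwε
  have hi : Integrable (S.indicator fun _ : E => ϖ ^ 2) :=
    (integrable_indicator_iff hSm).2 (integrableOn_const hSf.ne)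
  have h3 : ∫ x, S.indicator (fun _ : E => ϖ ^ 2) x = ϖ ^ 2 * volume.real S := by
    rw [integral_indicator hSm, setIntegral_const, smul_eq_mul, mul_comm]
  rw [← h3]
  unfold Helper38.Curl.sq
  apply integral_mono_of_nonneg (Eventually.of_forall fun x => by positivity) hi
  refine Eventually.of_forall fun x => ?_
  by_cases hx : x ∈ S
  · show ‖mol r g x - g x‖ ^ 2 ≤ _
    rw [indicator_of_mem hx]
    have := h1 x
    gcongr
  · show ‖mol r g x - g x‖ ^ 2 ≤ _
    rw [indicator_of_notMem hx, h2 x hx]
    simp

/-- Convergence of mollifications, given that they are contractions of `L²`. -/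
theorem mol_tendsto_of (hM : ∀ {v : E → E}, MemLp v 2 → ∀ {r : ℝ}, 0 < r → MemLp (mol r v) 2)
    (hS : ∀ {v : E → E}, MemLp v 2 → ∀ {r : ℝ}, 0 < r → sq (mol r v) ≤ sq v)
    {v : E → E} (hv : MemLp v 2) :
    Tendsto (fun r => sq (fun x => mol r v x - v x)) (𝓝[>] 0) (𝓝 0) := by
  have key : Tendsto (fun r => √(sq (fun x => mol r v x - v x))) (𝓝[>] 0) (𝓝 0) := by
    rw [Metric.tendsto_nhdsWithin_nhds]
    intro ε hε
    have hv2 : MemLp v (ENNReal.ofReal 2) := by
      rw [show ENNReal.ofReal 2 = 2 by norm_num]; exact hv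
    obtain ⟨g, hgs, hgε, hgc, hgm⟩ := hv2.exists_hasCompactSupport_integral_rpow_sub_le
      (by norm_num : (0 : ℝ) < 2) (show 0 < (ε / 4) ^ 2 by positivity)
    have hgm' : MemLp g 2 := hgc.memLp_of_hasCompactSupport hgs
    have hd : MemLp (fun x => v x - g x) 2 := hv.sub hgm'
    have h1 : sq (fun x => v x - g x) ≤ (ε / 4) ^ 2 := by
      unfold Helper38.Curl.sq
      refine le_trans (le_of_eq ?_) hgε
      congr 1
      ext x
      rw [Real.rpow_two]
    have h1' : √(sq (fun x => v x - g x)) ≤ ε / 4 := by
      rw [← Real.sqrt_sq (show 0 ≤ ε / 4 by positivity)]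
      exact Real.sqrt_le_sqrt h1
    have h2 := Metric.tendsto_nhdsWithin_nhds.1 (mol_tendsto_cont hgc hgs) ((ε / 4) ^ 2)
      (by positivity)
    obtain ⟨δ, hδ, hδε⟩ := h2
    refine ⟨δ, hδ, fun r hr hrd => ?_⟩
    have hr0 : 0 < r := hr
    have h3 := hδε hr hrd
    rw [Real.dist_eq, sub_zero, abs_of_nonneg (sq_nonneg' _)] at h3
    have h3' : √(sq (fun x => mol r g x - g x)) ≤ ε / 4 := by
      rw [← Real.sqrt_sq (show 0 ≤ ε / 4 by positivity)]
      exact Real.sqrt_le_sqrt h3.le
    rw [Real.dist_eq, sub_zero, abs_of_nonneg (Real.sqrt_nonneg _)]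
    have hvl : LocallyIntegrable v := hv.locallyIntegrable (by norm_num)
    have hgl : LocallyIntegrable g := hgm'.locallyIntegrable (by norm_num)
    have e1 : (fun x => mol r v x - v x) = fun x => (mol r (fun y => v y - g y) x
        + (mol r g x - g x)) - (v x - g x) := by
      funext x
      rw [mol_sub hvl hgl hr0 x]; abel
    have m1 : MemLp (mol r (fun y => v y - g y)) 2 := hM hd hr0
    have m2 : MemLp (fun x => mol r g x - g x) 2 := (hM hgm' hr0).sub hgm'
    have m3 : MemLp (fun x => mol r (fun y => v y - g y) x + (mol r g x - g x)) 2 := m1.add m2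
    rw [e1]
    have h4 := sqrt_sq_sub_le m3 hd
    have h5 := sqrt_sq_add_le m1 m2
    have h6 : √(sq (mol r (fun y => v y - g y))) ≤ √(sq (fun y => v y - g y)) :=
      Real.sqrt_le_sqrt (hS hd hr0)
    have h7 : √(sq (fun x => mol r (fun y => v y - g y) x)) = √(sq (mol r (fun y => v y - g y))) :=
      rfl
    linarith
  have h := key.pow 2
  simp only [ne_eq, OfNat.ofNat_ne_zero, not_false_eq_true, zero_pow] at h
  refine h.congr fun r => ?_
  rw [Real.sq_sqrt (sq_nonneg' _)]

end Pool.Agent.Helper41.Curl
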