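import Pool.Agent.Helper41.Curl.MolTendsto

/-! Part of packet C-M2: mollification is a contraction of `L²`. -/

set_option autoImplicit false

open MeasureTheory Set Filter Topology Metric
open scoped ContDiff RealInnerProductSpace Convolution
open Pool.Agent.Helper38.Curl Pool.Agent.Helper94.Curl

namespace Pool.Agent.Helper41.Curl

theorem kap_bound {r : ℝ} (hr : 0 < r) : ∃ C, 0 ≤ C ∧ ∀ y, ‖kap r y‖ ≤ C := by
  obtain ⟨C, hC⟩ := (kap_contDiff hr).continuous.bounded_above_of_compact_support (kap_compact hr)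
  exact ⟨C, (norm_nonneg _).trans (hC 0), hC⟩

theorem integral_kap_sub {r : ℝ} (hr : 0 < r) (x : E) : ∫ y, kap r (x - y) = 1 := by
  rw [integral_sub_left_eq_self (kap r) volume x, integral_kap hr]

/-- Jensen's inequality for the mollification. -/
theorem sq_norm_mol_le {v : E → E} (hv : MemLp v 2) {r : ℝ} (hr : 0 < r) (x : E) :
    ‖mol r v x‖ ^ 2 ≤ ∫ y, kap r (x - y) * ‖v y‖ ^ 2 := by
  have hvl : LocallyIntegrable v := hv.locallyIntegrable (by norm_num)
  have hi := integrable_kap_smul hvl hr x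
  have hkc : Continuous (fun y => kap r (x - y)) :=
    (kap_contDiff hr).continuous.comp (continuous_const.sub continuous_id)
  have hki : Integrable (fun y => kap r (x - y)) :=
    hkc.integrable_of_hasCompactSupport ((kap_compact hr).comp_homeomorph (Homeomorph.subLeft x))
  obtain ⟨C, hC0, hC⟩ := kap_bound hr
  have hk2 : Integrable (fun y => kap r (x - y) * ‖v y‖ ^ 2) :=
    (integrable_norm_sq hv).bdd_mul hkc.aestronglyMeasurable (Eventually.of_forall fun y => hC _)
  set m := mol r v x with hm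
  have h1 : ∫ y, kap r (x - y) * ‖v y - m‖ ^ 2
      = (∫ y, kap r (x - y) * ‖v y‖ ^ 2) - ‖m‖ ^ 2 := by
    have e1 : ∀ y, kap r (x - y) * ‖v y - m‖ ^ 2 = (kap r (x - y) * ‖v y‖ ^ 2
        - 2 * ⟪m, kap r (x - y) • v y⟫) + kap r (x - y) * ‖m‖ ^ 2 := by
      intro y
      rw [norm_sub_sq_real, inner_smul_right, real_inner_comm]
      ring
    simp only [e1]
    have i2 : Integrable (fun y => 2 * ⟪m, kap r (x - y) • v y⟫) :=
      (hi.const_inner m).const_mul 2
    have i3 : Integrable (fun y => kap r (x - y) * ‖v y‖ ^ 2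
        - 2 * ⟪m, kap r (x - y) • v y⟫) := hk2.sub i2
    rw [integral_add i3 (hki.mul_const _), integral_sub hk2 i2, integral_const_mul,
      integral_inner hi, integral_mul_const, integral_kap_sub hr]
    have e2 : ∫ y, kap r (x - y) • v y = m := rfl
    rw [e2, real_inner_self_eq_norm_sq]
    ring
  have h2 : 0 ≤ ∫ y, kap r (x - y) * ‖v y - m‖ ^ 2 :=
    integral_nonneg fun y => mul_nonneg (kap_nonneg hr _) (by positivity)
  linarith

theorem conv_facts {v : E → E} (hv : MemLp v 2) {r : ℝ} (hr : 0 < r) :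
    Integrable (fun x => ∫ y, kap r (x - y) * ‖v y‖ ^ 2) ∧
      ∫ x, (∫ y, kap r (x - y) * ‖v y‖ ^ 2) = sq v := by
  have hki : Integrable (kap r) :=
    (kap_contDiff hr).continuous.integrable_of_hasCompactSupport (kap_compact hr)
  have hv2 := integrable_norm_sq hv
  have e : (fun x => ∫ y, kap r (x - y) * ‖v y‖ ^ 2)
      = (fun y => ‖v y‖ ^ 2) ⋆[ContinuousLinearMap.mul ℝ ℝ, volume] (kap r) := by
    funext x
    rw [convolution_def]
    congr 1
    ext y
    simp [mul_comm]
  constructor
  · rw [e]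
    exact hv2.integrable_convolution _ hki
  · rw [e, integral_convolution (ContinuousLinearMap.mul ℝ ℝ) hv2 hki, integral_kap hr]
    simp [Helper38.Curl.sq]

theorem mol_memLp {v : E → E} (hv : MemLp v 2) {r : ℝ} (hr : 0 < r) : MemLp (mol r v) 2 := by
  have hvl : LocallyIntegrable v := hv.locallyIntegrable (by norm_num)
  have hc : Continuous (mol r v) := (mol_contDiff hvl hr).continuous
  rw [memLp_two_iff_integrable_sq_norm hc.aestronglyMeasurable]
  refine (conv_facts hv hr).1.mono' (hc.norm.pow 2).aestronglyMeasurable ?_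
  refine Eventually.of_forall fun x => ?_
  rw [Real.norm_eq_abs, abs_of_nonneg (by positivity)]
  exact sq_norm_mol_le hv hr x

theorem sq_mol_le {v : E → E} (hv : MemLp v 2) {r : ℝ} (hr : 0 < r) : sq (mol r v) ≤ sq v := by
  rw [← (conv_facts hv hr).2]
  exact integral_mono (integrable_norm_sq (mol_memLp hv hr)) (conv_facts hv hr).1
    (fun x => sq_norm_mol_le hv hr x)

theorem mol_tendsto {v : E → E} (hv : MemLp v 2) :
    Tendsto (fun r => sq (fun x => mol r v x - v x)) (𝓝[>] 0) (𝓝 0) :=
  mol_tendsto_of (fun h _ hr => mol_memLp h hr) (fun h _ hr => sq_mol_le h hr) hv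

end Pool.Agent.Helper41.Curl
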