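import Pool.Agent.Helper41.Curl.WContA
import Pool.Agent.Helper41.Curl.MolL2
import Pool.Agent.Helper36.Curl.M2
import Pool.Agent.Helper40.Curl.KC

/-! Packet C-WCONT: weak continuity of the helicity. -/

set_option autoImplicit false

open MeasureTheory Set Filter Topology Metric
open scoped ContDiff RealInnerProductSpace
open Pool.Agent.Helper38.Curl Pool.Agent.Helper94.Curl
open Pool.Agent.Helper36.Curl (norm_mol_le ip_mol_comm)
open Pool.Agent.Helper40.Curl (curl_mol)

namespace Pool.Agent.Helper41.Curl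

/-- The basic estimate. -/
theorem abs_ip_sub_mol_le {a v b w : E → E} (h : Pot a v) (h' : Pot b w) {δ : ℝ} (hδ : 0 < δ) :
    |ip v (fun x => b x - mol δ b x)| ≤ δ * (√(sq v) * √(sq w)) := by
  obtain ⟨R, hR1, hR2⟩ := h.bdd
  obtain ⟨R', hR1', hR2'⟩ := h'.bdd
  have hv := h.memLp₂
  have hb := h'.memLp₁
  have hw := h'.memLp₂
  have hmv : MemLp (mol δ v) 2 := mol_memLp hv hδ
  have hmb : MemLp (mol δ b) 2 := mol_memLp hb hδ
  have e1 : ∀ f : E → E, MemLp f 2 → ip v (fun x => f x - mol δ f x)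
      = ip (fun x => v x - mol δ v x) f := by
    intro f hf
    rw [ip_sub_right hv hf (mol_memLp hf hδ), ip_sub_left hv hmv hf, ip_mol_comm hv hf hδ]
  have hvm : MemLp (fun x => v x - mol δ v x) 2 := hv.sub hmv
  -- the bound for the mollified fields
  have h1 : ∀ ε, 0 < ε → |ip (fun x => v x - mol δ v x) (mol ε b)| ≤ δ * (√(sq v) * √(sq w)) := by
    intro ε hε
    have ht : Test (mol ε b) := mol_test hb hR1' hε
    rw [← e1 _ ht.memLp]
    refine (abs_ip_sub_mol_le_test hv hR2 h.divFree ht hδ).trans ?_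
    rw [curl_mol h' hε]
    have := Real.sqrt_le_sqrt (sq_mol_le hw hε)
    gcongr
  have h2 : Tendsto (fun ε => ip (fun x => v x - mol δ v x) (mol ε b)) (𝓝[>] 0)
      (𝓝 (ip (fun x => v x - mol δ v x) b)) := by
    rw [tendsto_iff_norm_sub_tendsto_zero]
    have h3 : Tendsto (fun ε => √(sq (fun x => v x - mol δ v x)) *
        √(sq (fun x => mol ε b x - b x))) (𝓝[>] 0) (𝓝 0) := by
      have := ((mol_tendsto hb).sqrt).const_mul (√(sq (fun x => v x - mol δ v x)))
      simpa using this
    refine squeeze_zero' (Eventually.of_forall fun _ => norm_nonneg _) ?_ h3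
    filter_upwards [self_mem_nhdsWithin] with ε hε
    have hε' : 0 < ε := hε
    have hme := mol_memLp hb hε'
    rw [← ip_sub_right hvm hme hb, Real.norm_eq_abs]
    exact abs_ip_le hvm (hme.sub hb)
  rw [e1 b hb]
  refine le_of_tendsto h2.abs ?_
  filter_upwards [self_mem_nhdsWithin] with ε hε using h1 ε hε

/-- Coordinates of a mollification. -/
theorem mol_apply {v : E → E} (hv : MemLp v 2) {r : ℝ} (hr : 0 < r) (x : E) (i : Fin 3) :
    mol r v x i = ip v (fun y => kap r (x - y) • bv i) := by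
  have hc : Continuous (fun y => kap r (x - y)) :=
    (kap_contDiff hr).continuous.comp (continuous_const.sub continuous_id)
  have hs : HasCompactSupport (fun y => kap r (x - y)) :=
    (kap_compact hr).comp_homeomorph (Homeomorph.subLeft x)
  have hm : MemLp (fun y => kap r (x - y)) 2 := hc.memLp_of_hasCompactSupport hs
  have hi : Integrable (fun y => kap r (x - y) • v y) := by
    have hl : LocallyIntegrable v := hv.locallyIntegrable (by norm_num)
    exact hl.integrable_smul_left_of_hasCompactSupport hc hs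
  unfold mol ip
  have h1 := (EuclideanSpace.proj i : E →L[ℝ] ℝ).integral_comp_comm hi
  have h2 : (EuclideanSpace.proj i : E →L[ℝ] ℝ) (∫ y, kap r (x - y) • v y)
      = (∫ y, kap r (x - y) • v y) i := rfl
  rw [← h2, ← h1]
  congr 1
  ext y
  simp only [PiLp.proj_apply, PiLp.smul_apply, smul_eq_mul, inner_smul_right]
  congr 1
  rw [inner_eq]
  fin_cases i <;> simp [bv]

theorem kap_test {r : ℝ} (hr : 0 < r) (x : E) (i : Fin 3) :
    MemLp (fun y => kap r (x - y) • bv i) 2 ∧
      ∃ R, VanOff (closedBall 0 R) (fun y => kap r (x - y) • bv i) := by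
  have hc : Continuous (fun y => kap r (x - y) • bv i) :=
    ((kap_contDiff hr).continuous.comp (continuous_const.sub continuous_id)).smul continuous_const
  have hs : HasCompactSupport (fun y => kap r (x - y) • bv i) :=
    ((kap_compact hr).comp_homeomorph (Homeomorph.subLeft x)).smul_right
  refine ⟨hc.memLp_of_hasCompactSupport hs, ?_⟩
  obtain ⟨R, hR⟩ := exists_closedBall_of_compact hs
  refine ⟨R, Eventually.of_forall fun y hy => ?_⟩
  exact image_eq_zero_of_notMem_tsupport (f := fun y => kap r (x - y) • bv i)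
    fun hc => hy (hR hc)

/-- Mollifications converge pointwise under weak convergence. -/
theorem mol_tendsto_of_wk {v : ℕ → E → E} {V : E → E} (hv : ∀ n, MemLp (v n) 2)
    (hV : MemLp V 2) (hw : WkTo v V) {r : ℝ} (hr : 0 < r) (x : E) :
    Tendsto (fun n => mol r (v n) x) atTop (𝓝 (mol r V x)) := by
  have h1 : ∀ i, Tendsto (fun n => mol r (v n) x i) atTop (𝓝 (mol r V x i)) := by
    intro i
    simp only [mol_apply (hv _) hr, mol_apply hV hr]
    exact hw _ (kap_test hr x i).1 (kap_test hr x i).2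
  have h2 := (((h1 0).smul_const (bv 0)).add ((h1 1).smul_const (bv 1))).add
    ((h1 2).smul_const (bv 2))
  rw [← eq_sum_bv] at h2
  refine h2.congr fun n => ?_
  exact (eq_sum_bv _).symm

/-- Mollifications converge strongly under weak convergence with uniformly bounded supports. -/
theorem sq_mol_sub_tendsto {R C : ℝ} {v : ℕ → E → E} {V : E → E} (hv : ∀ n, MemLp (v n) 2)
    (hV : MemLp V 2) (hvR : ∀ n, VanOff (closedBall 0 R) (v n)) (hVR : VanOff (closedBall 0 R) V)
    (cv : ∀ n, sq (v n) ≤ C) (hw : WkTo v V) {δ : ℝ} (hδ : 0 < δ) :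
    Tendsto (fun n => sq (fun x => mol δ (v n) x - mol δ V x)) atTop (𝓝 0) := by
  obtain ⟨K, hK0, hK⟩ := norm_mol_le
  set C' := max C (sq V) with hC'
  have hC0 : 0 ≤ C' := (sq_nonneg' V).trans (le_max_right _ _)
  have hb : ∀ (f : E → E), MemLp f 2 → sq f ≤ C' → ∀ x, ‖mol δ f x‖ ^ 2 ≤ K * (δ ^ 3)⁻¹ * C' := by
    intro f hf hfC x
    refine (hK δ x f hδ (hf.restrict _)).trans ?_
    have h1 : sqOn (ball x δ) f ≤ sq f := by
      have := sqOn_mono (subset_univ (ball x δ)) (hf.restrict univ)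
      simpa [sqOn, Helper38.Curl.sq] using this
    have h2 : sqOn (ball x δ) f ≤ C' := h1.trans hfC
    gcongr
  set S := cthickening δ (closedBall (0 : E) R) with hS
  have hSm : MeasurableSet S := isClosed_cthickening.measurableSet
  have hSb : Bornology.IsBounded S := isBounded_closedBall.cthickening
  have hSf : volume S < ⊤ := hSb.measure_lt_top
  have hz : Tendsto (fun n => ∫ x, ‖mol δ (v n) x - mol δ V x‖ ^ 2) atTop
      (𝓝 (∫ _x : E, (0 : ℝ))) := by
    apply tendsto_integral_of_dominated_convergence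
      (S.indicator fun _ => 4 * (K * (δ ^ 3)⁻¹ * C'))
    · intro n
      exact (integrable_norm_sq ((mol_memLp (hv n) hδ).sub (mol_memLp hV hδ))).aestronglyMeasurable
    · exact (integrable_indicator_iff hSm).2 (integrableOn_const hSf.ne)
    · intro n
      refine Eventually.of_forall fun x => ?_
      by_cases hx : x ∈ S
      · rw [indicator_of_mem hx, Real.norm_eq_abs, abs_of_nonneg (by positivity)]
        have h1 := hb (v n) (hv n) ((cv n).trans (le_max_left _ _)) x
        have h2 := hb V hV (le_max_right _ _) x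
        have h3 : ‖mol δ (v n) x - mol δ V x‖ ≤ ‖mol δ (v n) x‖ + ‖mol δ V x‖ := norm_sub_le _ _
        have h4 := norm_nonneg (mol δ (v n) x - mol δ V x)
        nlinarith [sq_nonneg (‖mol δ (v n) x‖ - ‖mol δ V x‖), norm_nonneg (mol δ (v n) x),
          norm_nonneg (mol δ V x)]
      · rw [indicator_of_notMem hx, mol_van (hvR n) hδ hx, mol_van hVR hδ hx]
        simp
    · refine Eventually.of_forall fun x => ?_
      have h1 := mol_tendsto_of_wk hv hV hw hδ x
      have h2 := ((h1.sub_const (mol δ V x)).norm).pow 2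
      simpa using h2
  simpa [Helper38.Curl.sq] using hz

/-- Weak continuity of the helicity. -/
theorem wcont {R C : ℝ} {v a : ℕ → E → E} {V b : E → E} (h : ∀ n, Pot (a n) (v n))
    (hv : ∀ n, VanOff (closedBall 0 R) (v n)) (ha : ∀ n, VanOff (closedBall 0 R) (a n))
    (cv : ∀ n, sq (v n) ≤ C) (ca : ∀ n, sq (a n) ≤ C) (hb : Pot b V) (hw : WkTo v V) :
    Tendsto (fun n => ip (v n) (a n)) atTop (𝓝 (ip V b)) := by
  have _ := ha
  obtain ⟨R', hR1, hR2⟩ := hb.bdd
  have hs : closedBall (0 : E) R ⊆ closedBall 0 (max R R') :=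
    closedBall_subset_closedBall (le_max_left _ _)
  have hs' : closedBall (0 : E) R' ⊆ closedBall 0 (max R R') :=
    closedBall_subset_closedBall (le_max_right _ _)
  have hC0 : 0 ≤ C := (sq_nonneg' _).trans (cv 0)
  have mv : ∀ n, MemLp (v n) 2 := fun n => (h n).memLp₂
  have ma : ∀ n, MemLp (a n) 2 := fun n => (h n).memLp₁
  rw [Metric.tendsto_atTop']
  intro ε hε
  -- the choice of delta
  obtain ⟨δ, hδ, hδε⟩ : ∃ δ : ℝ, 0 < δ ∧ δ * (C + sq V) < ε / 2 := by
    have hp : 0 < C + sq V + 1 := by linarith [sq_nonneg' V]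
    refine ⟨ε / 2 / (C + sq V + 1) / 2, by positivity, ?_⟩
    have h1 : ε / 2 / (C + sq V + 1) / 2 * (C + sq V + 1) = ε / 4 := by
      field_simp; ring
    have h2 : ε / 2 / (C + sq V + 1) / 2 * (C + sq V)
        ≤ ε / 2 / (C + sq V + 1) / 2 * (C + sq V + 1) :=
      mul_le_mul_of_nonneg_left (by linarith) (by positivity)
    linarith
  have t1 := sq_mol_sub_tendsto mv hb.memLp₂ (fun n => (hv n).mono hs) (hR2.mono hs') cv hw hδ
  have t2 : Tendsto (fun n => √(sq (fun x => mol δ (v n) x - mol δ V x)) * √C) atTop (𝓝 0) := by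
    simpa using t1.sqrt.mul_const (√C)
  have htb : Test (mol δ b) := mol_test hb.memLp₁ hR1 hδ
  have t3 : Tendsto (fun n => ip (v n) (mol δ b)) atTop (𝓝 (ip V (mol δ b))) := by
    apply hw _ htb.memLp
    obtain ⟨R'', hR''⟩ := exists_closedBall_of_compact htb.2
    exact ⟨R'', Eventually.of_forall fun y hy =>
      image_eq_zero_of_notMem_tsupport fun hc => hy (hR'' hc)⟩
  have e2 := (tendsto_order.1 t2).2 (ε / 4) (by positivity)
  have e3 := (Metric.tendsto_atTop'.1 t3) (ε / 4) (by positivity)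
  obtain ⟨N2, hN2⟩ := eventually_atTop.1 e2
  obtain ⟨N3, hN3⟩ := e3
  refine ⟨max N2 N3, fun n hn => ?_⟩
  have g2 := hN2 n ((le_max_left _ _).trans hn.le)
  have g3 := hN3 n ((le_max_right _ _).trans_lt hn)
  rw [Real.dist_eq] at g3 ⊢
  have mmv : MemLp (mol δ (v n)) 2 := mol_memLp (mv n) hδ
  have mmV : MemLp (mol δ V) 2 := mol_memLp hb.memLp₂ hδ
  have mma : MemLp (mol δ (a n)) 2 := mol_memLp (ma n) hδ
  -- first term
  have f1 : |ip (v n) (fun x => a n x - mol δ (a n) x)| ≤ δ * C := by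
    refine (abs_ip_sub_mol_le (h n) (h n) hδ).trans ?_
    rw [Real.mul_self_sqrt (sq_nonneg' _)]
    gcongr
    exact cv n
  rw [ip_sub_right (mv n) (ma n) mma, ← ip_mol_comm (mv n) (ma n) hδ] at f1
  -- second term
  have f2 : |ip (fun x => mol δ (v n) x - mol δ V x) (a n)|
      ≤ √(sq (fun x => mol δ (v n) x - mol δ V x)) * √C := by
    refine (abs_ip_le (mmv.sub mmV) (ma n)).trans ?_
    exact mul_le_mul_of_nonneg_left (Real.sqrt_le_sqrt (ca n)) (Real.sqrt_nonneg _)
  rw [ip_sub_left mmv mmV (ma n)] at f2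
  -- third term
  have f3 : ip (mol δ V) (a n) = ip (v n) (mol δ b) := by
    rw [← curl_mol hb hδ, ip_comm, (h n).weak _ htb]
  rw [f3] at f2
  -- fourth term
  have f4 : |ip V (fun x => b x - mol δ b x)| ≤ δ * sq V := by
    refine (abs_ip_sub_mol_le hb hb hδ).trans ?_
    rw [Real.mul_self_sqrt (sq_nonneg' _)]
  rw [ip_sub_right hb.memLp₂ hb.memLp₁ htb.memLp] at f4
  have hsum : δ * C + δ * sq V < ε / 2 := by
    calc δ * C + δ * sq V = δ * (C + sq V) := by ring
      _ < ε / 2 := hδε
  rw [abs_le] at f1 f2 f4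
  rw [abs_lt] at g3 ⊢
  constructor <;> linarith [f1.1, f1.2, f2.1, f2.2, f4.1, f4.2, g3.1, g3.2]

end Pool.Agent.Helper41.Curl
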