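import Pool.Agent.Helper41.Curl.WContA

/-! Packet C-UP: constant blow-ups have norm at most one. -/

set_option autoImplicit false

open MeasureTheory Set Filter Topology Metric
open scoped ContDiff RealInnerProductSpace
open Pool.Agent.Helper38.Curl

namespace Pool.Agent.Helper41.Curl

theorem vanOff_shift {C : Set E} {v : E → E} (h : VanOff C v) (c : E) :
    VanOff ((fun z => z - c) ⁻¹' C) (fun z => v (z - c)) := by
  have := (measurePreserving_sub_right (volume : Measure E) c).quasiMeasurePreserving.ae h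
  filter_upwards [this] with x hx hxC
  exact hx hxC

theorem memLp_shift {v : E → E} (h : MemLp v 2) (c : E) : MemLp (fun z => v (z - c)) 2 :=
  h.comp_measurePreserving (measurePreserving_sub_right (volume : Measure E) c)

/-- Translates of potentials. -/
theorem pot_shift {b r : E → E} (h : Pot b r) (c : E) :
    Pot (fun z => b (z - c)) (fun z => r (z - c)) where
  memLp₁ := memLp_shift h.memLp₁ c
  memLp₂ := memLp_shift h.memLp₂ c
  bdd := by
    obtain ⟨R, h1, h2⟩ := h.bdd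
    have hs : (fun z => z - c) ⁻¹' closedBall (0 : E) R ⊆ closedBall 0 (R + ‖c‖) := by
      intro z hz
      simp only [mem_preimage, mem_closedBall, dist_zero_right] at hz ⊢
      calc ‖z‖ = ‖(z - c) + c‖ := by rw [sub_add_cancel]
        _ ≤ ‖z - c‖ + ‖c‖ := norm_add_le _ _
        _ ≤ R + ‖c‖ := by gcongr
    exact ⟨R + ‖c‖, (vanOff_shift h1 c).mono hs, (vanOff_shift h2 c).mono hs⟩
  weak := fun φ hφ => by
    have e1 : ∀ f g : E → E, ip (fun z => f (z - c)) g = ip f (fun z => g (z - -c)) := by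
      intro f g
      unfold ip
      rw [← integral_sub_right_eq_self (fun x => ⟪f x, g (x - -c)⟫) c]
      simp
    rw [e1, e1, ← h.weak _ (Test.shift hφ (-c))]
    congr 1
    funext x
    rw [curl_shift]

theorem volume_shift (S : Set E) (c : E) :
    volume.real ((fun z => z - c) ⁻¹' S) = volume.real S := by
  have : (fun z : E => z - c) ⁻¹' S = (fun z => z + -c) ⁻¹' S := by simp [sub_eq_add_neg]
  rw [this, measureReal_def, measure_preimage_add_right, measureReal_def]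

/-- The statement of the tube lemma (packet C-TUBE). -/
def TubeStmt : Prop :=
  ∀ {e q : E} (_he : ‖e‖ = 1) (_hq : ⟪e, q⟫ = 0) {δ ε : ℝ} (_hδ : 0 < δ)
    (_hδq : 2 * δ < ‖q‖) (_hε : 0 < ε),
    ∃ (b r : E → E) (Z C D : Set E), Pot b r ∧ IsOpen Z ∧ 0 < volume.real Z ∧ IsCompact C ∧
      IsCompact D ∧ Z ⊆ C ∧ VanOff (C ∪ D) r ∧
      (∀ z ∈ Z, r z = e) ∧ (∀ z ∈ Z, ‖z - ⟪e, z⟫ • e‖ < δ) ∧
      (∀ z ∈ D, ‖z - q - ⟪e, z⟫ • e‖ < δ) ∧
      (∀ z, ‖z - ⟪e, z⟫ • e‖ < δ → 0 ≤ ⟪r z, e⟫) ∧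
      (∀ z, δ ≤ ‖z - ⟪e, z⟫ • e‖ → δ ≤ ‖z - q - ⟪e, z⟫ • e‖ → ⟪r z, e⟫ = 0) ∧
      (∫ z, ⟪r z, e⟫ = 0) ∧
      volume.real C ≤ (1 + ε) * volume.real Z ∧ sq r ≤ (1 + ε) * volume.real Z

/-- Constant blow-ups have norm at most one. -/
theorem upper_of (tube : TubeStmt) {c₀ : ℝ} (hc : 0 < c₀) {ν : E} {g : E → ℝ} (hν : ‖ν‖ = 1)
    (hl : LipschitzWith 1 g) (h0 : g 0 = 0)
    (ht : ∀ z, g z = 0 → ∀ t, 0 ≤ t → c₀ * t ≤ g (z + t • ν) ∧ g (z - t • ν) ≤ -(c₀ * t))
    {e : E} (he : ‖e‖ = 1) {ℓ : ℝ} (hℓ : 0 < ℓ)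
    (hinv : ∀ (z : E) (t : ℝ), (0 < g (z + t • e) ↔ 0 < g z) ∧ (g (z + t • e) < 0 ↔ g z < 0))
    {V : E → E} (hV : ∀ᵐ z, (0 < g z → V z = ℓ • e) ∧ (g z ≤ 0 → V z = 0))
    (hT : ∀ (b r : E → E) (Q : Set E), Pot b r → IsCompact Q → VanOff Q r →
      -2 * ip V r ≤ volume.real (Q \ {z | 0 < g z}) + sq r) : ℓ ≤ 1 := by
  have _ := hν
  have hgc : Continuous g := hl.continuous
  obtain ⟨z₀, hz₀⟩ : ∃ z₀ : E, z₀ = -ν := ⟨_, rfl⟩
  have g0 : g z₀ < 0 := by
    have := (ht 0 h0 1 zero_le_one).2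
    rw [one_smul, zero_sub, ← hz₀] at this
    linarith
  have g1 : 0 < g ν := by
    have := (ht 0 h0 1 zero_le_one).1
    rw [one_smul, zero_add] at this
    linarith
  obtain ⟨q, hqdef⟩ : ∃ q : E, q = (2 : ℝ) • ν - (2 * ⟪ν, e⟫) • e := ⟨_, rfl⟩
  have hee : ⟪e, e⟫ = 1 := by rw [real_inner_self_eq_norm_sq, he]; norm_num
  have hq : ⟪e, q⟫ = 0 := by
    rw [hqdef, inner_sub_right, inner_smul_right, inner_smul_right, hee, real_inner_comm]
    ring
  have g2 : 0 < g (z₀ + q) := by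
    have h1 : z₀ + q = ν + (-(2 * ⟪ν, e⟫)) • e := by
      rw [hz₀, hqdef, two_smul, neg_smul]; abel
    rw [h1]
    exact (hinv ν _).1.2 g1
  have hq0 : 0 < ‖q‖ := by
    rw [norm_pos_iff]
    intro h
    rw [h, add_zero] at g2
    linarith
  -- the radius
  obtain ⟨δ, hδ, hδq, hb0, hb1⟩ : ∃ δ : ℝ, 0 < δ ∧ 2 * δ < ‖q‖ ∧ (∀ z ∈ ball z₀ δ, g z < 0) ∧
      (∀ z ∈ ball (z₀ + q) δ, 0 < g z) := by
    have o1 : IsOpen {z | g z < 0} := isOpen_lt hgc continuous_const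
    have o2 : IsOpen {z | 0 < g z} := isOpen_lt continuous_const hgc
    obtain ⟨δ₁, hδ₁, hs₁⟩ := Metric.isOpen_iff.1 o1 z₀ g0
    obtain ⟨δ₂, hδ₂, hs₂⟩ := Metric.isOpen_iff.1 o2 (z₀ + q) g2
    refine ⟨min (min δ₁ δ₂) (‖q‖ / 4), by positivity, ?_, ?_, ?_⟩
    · have := min_le_right (min δ₁ δ₂) (‖q‖ / 4)
      linarith
    · intro z hz
      exact hs₁ (ball_subset_ball ((min_le_left _ _).trans (min_le_left _ _)) hz)
    · intro z hz
      exact hs₂ (ball_subset_ball ((min_le_left _ _).trans (min_le_right _ _)) hz)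
  have T0 : ∀ z, ‖(z - z₀) - ⟪e, z - z₀⟫ • e‖ < δ → g z < 0 := by
    intro z hz
    rw [← (hinv z (-⟪e, z - z₀⟫)).2]
    apply hb0
    have e1 : z + (-⟪e, z - z₀⟫) • e - z₀ = (z - z₀) - ⟪e, z - z₀⟫ • e := by
      rw [neg_smul]; abel
    rw [mem_ball, dist_eq_norm, e1]
    exact hz
  have T1 : ∀ z, ‖(z - z₀) - q - ⟪e, z - z₀⟫ • e‖ < δ → 0 < g z := by
    intro z hz
    rw [← (hinv z (-⟪e, z - z₀⟫)).1]
    apply hb1
    have e1 : z + (-⟪e, z - z₀⟫) • e - (z₀ + q) = (z - z₀) - q - ⟪e, z - z₀⟫ • e := by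
      rw [neg_smul]; abel
    rw [mem_ball, dist_eq_norm, e1]
    exact hz
  apply le_of_forall_pos_le_add
  intro ε hε
  obtain ⟨b, r, Z, C, D, hp, hZo, hZp, hC, hD, hZC, hvan, hrZ, hZt, hDt, hpos, hzero, hint, hCv,
    hsq⟩ := tube he hq hδ hδq hε
  have hp' := pot_shift hp z₀
  have hvan' := vanOff_shift hvan z₀
  have hQ : IsCompact ((fun z => z - z₀) ⁻¹' (C ∪ D)) :=
    (Homeomorph.subRight z₀).isCompact_preimage.2 (hC.union hD)
  have key := hT _ _ _ hp' hQ hvan'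
  -- the volume term
  have k1 : volume.real (((fun z => z - z₀) ⁻¹' (C ∪ D)) \ {z | 0 < g z})
      ≤ (1 + ε) * volume.real Z := by
    refine le_trans ?_ hCv
    rw [← volume_shift C z₀]
    apply measureReal_mono
    · rintro z ⟨hz1, hz2⟩
      rcases hz1 with hz1 | hz1
      · exact hz1
      · exact absurd (T1 z (hDt _ hz1)) hz2
    · exact ((Homeomorph.subRight z₀).isCompact_preimage.2 hC).measure_lt_top.ne
  have k2 : sq (fun z => r (z - z₀)) ≤ (1 + ε) * volume.real Z := by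
    rw [sq_shift]; exact hsq
  -- the pairing
  obtain ⟨R, hR1, hR2⟩ := hp.bdd
  have hri : Integrable r := integrable_of_vanOff hp.memLp₂ hR2
  have hfi0 : Integrable (fun z => ⟪r z, e⟫) := hri.inner_const e
  have hfi : Integrable (fun z => ⟪r (z - z₀), e⟫) := hfi0.comp_sub_right z₀
  have hf0 : ∫ z, ⟪r (z - z₀), e⟫ = 0 := by
    rw [integral_sub_right_eq_self (fun z => ⟪r z, e⟫) z₀]; exact hint
  have mP : MeasurableSet {z | 0 < g z} := (isOpen_lt continuous_const hgc).measurableSet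
  have k3 : ip V (fun z => r (z - z₀)) = ℓ * ∫ z in {z | 0 < g z}, ⟪r (z - z₀), e⟫ := by
    unfold ip
    rw [← integral_const_mul, ← integral_indicator mP]
    apply integral_congr_ae
    filter_upwards [hV] with z hz
    by_cases hg : 0 < g z
    · rw [indicator_of_mem (show z ∈ {z | 0 < g z} from hg), hz.1 hg, real_inner_smul_left,
        real_inner_comm]
    · rw [indicator_of_notMem (show z ∉ {z | 0 < g z} from hg), hz.2 (not_lt.1 hg),
        inner_zero_left]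
  have k4 : ∫ z in {z | 0 < g z}, ⟪r (z - z₀), e⟫
      = -∫ z in {z | 0 < g z}ᶜ, ⟪r (z - z₀), e⟫ := by
    have := integral_add_compl mP hfi
    linarith
  have k5 : volume.real Z ≤ ∫ z in {z | 0 < g z}ᶜ, ⟪r (z - z₀), e⟫ := by
    have hZ' : MeasurableSet ((fun z => z - z₀) ⁻¹' Z) :=
      (hZo.preimage (continuous_id.sub continuous_const)).measurableSet
    have hsub : ((fun z => z - z₀) ⁻¹' Z) ⊆ {z | 0 < g z}ᶜ := by
      intro z hz
      have := T0 z (hZt _ hz)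
      simp only [mem_compl_iff, mem_ofPred_eq, not_lt]
      exact this.le
    have hnn : ∀ z, z ∈ {z | 0 < g z}ᶜ → 0 ≤ ⟪r (z - z₀), e⟫ := by
      intro z hz
      by_cases h1 : ‖(z - z₀) - ⟪e, z - z₀⟫ • e‖ < δ
      · exact hpos _ h1
      · rw [hzero _ (not_lt.1 h1) (not_lt.1 fun h2 => hz (T1 z h2))]
    have h1 : ∫ z in ((fun z => z - z₀) ⁻¹' Z), ⟪r (z - z₀), e⟫ = volume.real Z := by
      rw [setIntegral_congr_fun hZ' (g := fun _ => (1 : ℝ))]
      · rw [setIntegral_const, volume_shift]; simp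
      · intro z hz
        show ⟪r (z - z₀), e⟫ = 1
        rw [hrZ _ hz, hee]
    rw [← h1]
    apply setIntegral_mono_set hfi.integrableOn
    · exact (ae_restrict_iff' mP.compl).2 (Eventually.of_forall hnn)
    · exact Eventually.of_forall hsub
  have k6 : ip V (fun z => r (z - z₀)) ≤ -(ℓ * volume.real Z) := by
    rw [k3, k4]
    have := mul_le_mul_of_nonneg_left k5 hℓ.le
    linarith
  have k7 : ℓ * volume.real Z ≤ (1 + ε) * volume.real Z := by linarith
  exact le_of_mul_le_mul_right k7 hZp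

end Pool.Agent.Helper41.Curl
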