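import Pool.Agent.Helper94.Curl.MollA

/-! Packet C-WCONT, part A: the basic estimate for test fields. -/

set_option autoImplicit false

open MeasureTheory Set Filter Topology Metric
open scoped ContDiff RealInnerProductSpace
open Pool.Agent.Helper38.Curl Pool.Agent.Helper94.Curl

namespace Pool.Agent.Helper41.Curl

/-- Square integrable fields with bounded support are integrable. -/
theorem integrable_of_vanOff {v : E → E} (hv : MemLp v 2) {R : ℝ}
    (h : VanOff (closedBall 0 R) v) : Integrable v := by
  have h1 : MemLp v 2 (volume.restrict (closedBall 0 R)) := hv.restrict _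
  have : IsFiniteMeasure ((volume : Measure E).restrict (closedBall 0 R)) :=
    ⟨by rw [Measure.restrict_apply_univ]; exact measure_closedBall_lt_top⟩
  have h2 : Integrable v (volume.restrict (closedBall 0 R)) :=
    memLp_one_iff_integrable.1 (h1.mono_exponent (by norm_num))
  have h3 : Integrable ((closedBall (0 : E) R).indicator v) :=
    (integrable_indicator_iff measurableSet_closedBall).2 h2
  refine h3.congr ?_
  filter_upwards [h] with x hx
  by_cases hc : x ∈ closedBall (0 : E) R
  · simp [hc]
  · simp [hc, hx hc]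

theorem Test.bound {b : E → E} (hb : Test b) : ∃ C, 0 ≤ C ∧ ∀ x, ‖b x‖ ≤ C := by
  obtain ⟨C, hC⟩ := hb.1.continuous.bounded_above_of_compact_support hb.2
  exact ⟨C, (norm_nonneg _).trans (hC 0), hC⟩

theorem Test.fderiv_bound {b : E → E} (hb : Test b) : ∃ C, 0 ≤ C ∧ ∀ x, ‖fderiv ℝ b x‖ ≤ C := by
  have h1 : Continuous (fderiv ℝ b) := hb.1.continuous_fderiv (by simp)
  obtain ⟨C, hC⟩ := h1.bounded_above_of_compact_support (hb.2.fderiv ℝ)
  exact ⟨C, (norm_nonneg _).trans (hC 0), hC⟩

/-- Translates of test fields. -/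
theorem Test.shift {b : E → E} (hb : Test b) (y : E) : Test (fun x => b (x - y)) := by
  refine ⟨hb.1.comp (contDiff_id.sub contDiff_const), ?_⟩
  exact hb.2.comp_homeomorph (Homeomorph.subRight y)

theorem fderiv_shift (b : E → E) (y x : E) :
    fderiv ℝ (fun x => b (x - y)) x = fderiv ℝ b (x - y) :=
  fderiv_comp_sub y

theorem curl_shift (b : E → E) (y x : E) : curl (fun x => b (x - y)) x = curl b (x - y) := by
  apply ext3 <;> simp [curl, pd, fderiv_shift]

theorem sq_shift (w : E → E) (y : E) : sq (fun x => w (x - y)) = sq w := by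
  unfold Helper38.Curl.sq
  exact integral_sub_right_eq_self (fun x => ‖w x‖ ^ 2) y

theorem continuous_cr_const {f : E → E} (hf : Continuous f) (y : E) :
    Continuous (fun x => cr (f x) y) := by
  have e : (fun x => cr (f x) y) = fun x =>
      (f x 1 * y 2 - f x 2 * y 1) • bv 0 + (f x 2 * y 0 - f x 0 * y 2) • bv 1
        + (f x 0 * y 1 - f x 1 * y 0) • bv 2 := by
    funext x
    rw [eq_sum_bv (cr (f x) y)]; simp
  rw [e]
  fun_prop

/-- The divergence free field `v` tested with a directional derivative of a test field. -/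
theorem ip_fderiv_apply {v b : E → E} (hv : MemLp v 2)
    (hd : ∀ η, TestF η → ∫ x, fderiv ℝ η x (v x) = 0) (hb : Test b) (y : E) :
    ip v (fun x => fderiv ℝ b x y) = ip v (fun x => cr (curl b x) y) := by
  -- the function `⟪b, y⟫`
  have hη : TestF (fun x => ⟪b x, y⟫) := by
    refine ⟨hb.1.inner ℝ contDiff_const, ?_⟩
    refine hb.2.mono ?_
    intro x hx
    simp only [Function.mem_support] at hx ⊢
    intro h0
    apply hx
    rw [h0, inner_zero_left]
  have hdb : Differentiable ℝ b := hb.1.differentiable (by simp)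
  have h1 : ∀ x z, fderiv ℝ (fun x => ⟪b x, y⟫) x z = ⟪fderiv ℝ b x z, y⟫ := by
    intro x z
    rw [fderiv_inner_apply ℝ (hdb x) (differentiableAt_const y)]
    simp
  have h2 : ∀ x, ⟪v x, fderiv ℝ b x y⟫ - ⟪v x, cr (curl b x) y⟫
      = fderiv ℝ (fun x => ⟪b x, y⟫) x (v x) := by
    intro x
    rw [h1]
    have h3 := inner_fderiv_sub b x y (v x)
    have h4 : ⟪curl b x, cr y (v x)⟫ = ⟪cr (curl b x) y, v x⟫ := (inner_cr _ _ _).symm
    rw [h4] at h3
    rw [real_inner_comm (fderiv ℝ b x y) (v x), real_inner_comm (cr (curl b x) y) (v x)]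
    linarith
  have hc1 : Continuous (fun x => fderiv ℝ b x y) :=
    (hb.1.continuous_fderiv (by simp)).clm_apply continuous_const
  have hs1 : HasCompactSupport (fun x => fderiv ℝ b x y) := by
    refine (hb.2.fderiv ℝ).mono ?_
    intro x hx
    simp only [Function.mem_support] at hx ⊢
    intro h0
    apply hx
    rw [h0]; simp
  have m1 : MemLp (fun x => fderiv ℝ b x y) 2 := hc1.memLp_of_hasCompactSupport hs1
  have hc2 : Continuous (fun x => cr (curl b x) y) :=
    continuous_cr_const hb.curl.1.continuous y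
  have hs2 : HasCompactSupport (fun x => cr (curl b x) y) := by
    refine hb.curl.2.mono ?_
    intro x hx
    simp only [Function.mem_support] at hx ⊢
    intro h0
    apply hx
    rw [h0]; simp
  have m2 : MemLp (fun x => cr (curl b x) y) 2 := hc2.memLp_of_hasCompactSupport hs2
  have h5 : ip v (fun x => fderiv ℝ b x y) - ip v (fun x => cr (curl b x) y) = 0 := by
    unfold ip
    rw [← integral_sub (integrable_inner hv m1) (integrable_inner hv m2), ← hd _ hη]
    exact integral_congr_ae (Eventually.of_forall h2)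
  linarith

/-- The bound for the directional derivative. -/
theorem abs_ip_fderiv_le {v b : E → E} (hv : MemLp v 2)
    (hd : ∀ η, TestF η → ∫ x, fderiv ℝ η x (v x) = 0) (hb : Test b) (y : E) :
    |ip v (fun x => fderiv ℝ b x y)| ≤ ‖y‖ * (√(sq v) * √(sq (curl b))) := by
  rw [ip_fderiv_apply hv hd hb y]
  have hc2 : Continuous (fun x => cr (curl b x) y) :=
    continuous_cr_const hb.curl.1.continuous y
  have hs2 : HasCompactSupport (fun x => cr (curl b x) y) := by
    refine hb.curl.2.mono ?_
    intro x hx
    simp only [Function.mem_support] at hx ⊢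
    intro h0
    apply hx
    rw [h0]; simp
  have m2 : MemLp (fun x => cr (curl b x) y) 2 := hc2.memLp_of_hasCompactSupport hs2
  have h1 := abs_ip_le hv m2
  have h2 : sq (fun x => cr (curl b x) y) ≤ ‖y‖ ^ 2 * sq (curl b) := by
    unfold Helper38.Curl.sq
    rw [← integral_const_mul]
    apply integral_mono (integrable_norm_sq m2) ((integrable_norm_sq hb.curl.memLp).const_mul _)
    intro x
    have := norm_cr_le (curl b x) y
    calc ‖cr (curl b x) y‖ ^ 2 ≤ (‖curl b x‖ * ‖y‖) ^ 2 := by gcongr
      _ = ‖y‖ ^ 2 * ‖curl b x‖ ^ 2 := by ring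
  have h3 : √(sq (fun x => cr (curl b x) y)) ≤ ‖y‖ * √(sq (curl b)) := by
    calc √(sq (fun x => cr (curl b x) y)) ≤ √(‖y‖ ^ 2 * sq (curl b)) := Real.sqrt_le_sqrt h2
      _ = ‖y‖ * √(sq (curl b)) := by
        rw [Real.sqrt_mul (by positivity), Real.sqrt_sq (norm_nonneg y)]
  calc |ip v (fun x => cr (curl b x) y)| ≤ √(sq v) * √(sq (fun x => cr (curl b x) y)) := h1
    _ ≤ √(sq v) * (‖y‖ * √(sq (curl b))) := by gcongr
    _ = ‖y‖ * (√(sq v) * √(sq (curl b))) := by ring

/-- Translation estimate for test fields. -/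
theorem abs_ip_shift_le {v b : E → E} (hv : MemLp v 2) {R : ℝ} (hR : VanOff (closedBall 0 R) v)
    (hd : ∀ η, TestF η → ∫ x, fderiv ℝ η x (v x) = 0) (hb : Test b) (y : E) :
    |ip v (fun x => b x - b (x - y))| ≤ ‖y‖ * (√(sq v) * √(sq (curl b))) := by
  have hvi : Integrable v := integrable_of_vanOff hv hR
  obtain ⟨C, hC0, hC⟩ := Test.fderiv_bound hb
  have hdb : Differentiable ℝ b := hb.1.differentiable (by simp)
  -- the function of `t`
  set φ : ℝ → ℝ := fun t => ∫ x, ⟪v x, b (x - t • y)⟫ with hφ
  have hderiv : ∀ t : ℝ, HasDerivAt φ (-(∫ x, ⟪v x, fderiv ℝ b (x - t • y) y⟫)) t := by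
    intro t
    have key := hasDerivAt_integral_of_dominated_loc_of_deriv_le (𝕜 := ℝ) (μ := (volume : Measure E))
      (F := fun t x => ⟪v x, b (x - t • y)⟫)
      (F' := fun t x => -⟪v x, fderiv ℝ b (x - t • y) y⟫) (x₀ := t) (s := univ)
      (bound := fun x => ‖v x‖ * (C * ‖y‖)) univ_mem ?_ ?_ ?_ ?_ ?_ ?_
    · rw [← integral_neg]
      exact key.2
    · refine Eventually.of_forall fun s => ?_
      exact (integrable_inner hv (Test.shift hb (s • y)).memLp).aestronglyMeasurable
    · exact integrable_inner hv (Test.shift hb (t • y)).memLp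
    · have hc1 : Continuous (fun x => fderiv ℝ b (x - t • y) y) :=
        ((hb.1.continuous_fderiv (by simp)).comp (continuous_id.sub continuous_const)).clm_apply
          continuous_const
      exact (hv.aestronglyMeasurable.inner hc1.aestronglyMeasurable).neg
    · refine Eventually.of_forall fun x s _ => ?_
      rw [norm_neg]
      calc ‖⟪v x, fderiv ℝ b (x - s • y) y⟫‖ ≤ ‖v x‖ * ‖fderiv ℝ b (x - s • y) y‖ :=
            norm_inner_le_norm _ _
        _ ≤ ‖v x‖ * (C * ‖y‖) := by
            gcongr
            exact (ContinuousLinearMap.le_opNorm _ _).trans (by gcongr; exact hC _)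
    · exact hvi.norm.mul_const _
    · refine Eventually.of_forall fun x s _ => ?_
      have h1 : HasDerivAt (fun s : ℝ => x - s • y) (-y) s := by
        simpa using ((hasDerivAt_id s).smul_const y).const_sub x
      have h2 : HasDerivAt (fun s : ℝ => b (x - s • y)) (fderiv ℝ b (x - s • y) (-y)) s :=
        (hdb (x - s • y)).hasFDerivAt.comp_hasDerivAt s h1
      have h3 := (hasDerivAt_const s (v x)).inner ℝ h2
      simpa using h3
  have hbd : ∀ t : ℝ, ‖(∫ x, ⟪v x, fderiv ℝ b (x - t • y) y⟫)‖ ≤
      ‖y‖ * (√(sq v) * √(sq (curl b))) := by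
    intro t
    have h1 := abs_ip_fderiv_le hv hd (Test.shift hb (t • y)) y
    have h2 : curl (fun x => b (x - t • y)) = fun x => curl b (x - t • y) := by
      funext x; exact curl_shift b _ x
    rw [h2, sq_shift] at h1
    simp only [fderiv_shift] at h1
    exact h1
  have h01 := (convex_univ (𝕜 := ℝ) (E := ℝ)).norm_image_sub_le_of_norm_hasDerivWithin_le
    (f := φ) (f' := fun t => -(∫ x, ⟪v x, fderiv ℝ b (x - t • y) y⟫))
    (C := ‖y‖ * (√(sq v) * √(sq (curl b)))) (x := (1 : ℝ)) (y := (0 : ℝ))
    (fun t _ => (hderiv t).hasDerivWithinAt) (fun t _ => by rw [norm_neg]; exact hbd t)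
    (mem_univ _) (mem_univ _)
  have e1 : ip v (fun x => b x - b (x - y)) = φ 0 - φ 1 := by
    rw [ip_sub_right hv hb.memLp (Test.shift hb y).memLp]
    simp [hφ, ip]
  rw [e1]
  simpa using h01

/-- Mollification as an average over translates. -/
theorem mol_eq (r : ℝ) (b : E → E) (x : E) : mol r b x = ∫ y, kap r y • b (x - y) := by
  unfold mol
  rw [← integral_sub_left_eq_self (fun y => kap r y • b (x - y)) volume x]
  simp

/-- The basic estimate, for test fields. -/
theorem abs_ip_sub_mol_le_test {v b : E → E} (hv : MemLp v 2) {R : ℝ}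
    (hR : VanOff (closedBall 0 R) v)
    (hd : ∀ η, TestF η → ∫ x, fderiv ℝ η x (v x) = 0) (hb : Test b) {δ : ℝ} (hδ : 0 < δ) :
    |ip v (fun x => b x - mol δ b x)| ≤ δ * (√(sq v) * √(sq (curl b))) := by
  have hvi : Integrable v := integrable_of_vanOff hv hR
  obtain ⟨C, hC0, hC⟩ := Test.bound hb
  have hki : Integrable (kap δ) :=
    (kap_contDiff hδ).continuous.integrable_of_hasCompactSupport (kap_compact hδ)
  have e1 : ∀ x, ⟪v x, b x - mol δ b x⟫ = ∫ y, kap δ y * ⟪v x, b x - b (x - y)⟫ := by
    intro x
    have hi : Integrable (fun y => kap δ y • b (x - y)) := by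
      have hc : Continuous (fun y => kap δ y • b (x - y)) :=
        (kap_contDiff hδ).continuous.smul (hb.1.continuous.comp (continuous_const.sub continuous_id))
      exact hc.integrable_of_hasCompactSupport (kap_compact hδ).smul_right
    have hi2 : Integrable (fun y => kap δ y • b x) := hki.smul_const _
    have h1 : b x - mol δ b x = ∫ y, kap δ y • (b x - b (x - y)) := by
      rw [mol_eq]
      simp only [smul_sub]
      rw [integral_sub hi2 hi, integral_smul_const, integral_kap hδ, one_smul]
    have hi3 : Integrable (fun y => kap δ y • (b x - b (x - y))) := by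
      simp only [smul_sub]
      exact hi2.sub hi
    rw [h1, ← integral_inner hi3]
    simp only [inner_smul_right]
  have hint : Integrable (fun p : E × E => kap δ p.2 * ⟪v p.1, b p.1 - b (p.1 - p.2)⟫)
      (volume.prod volume) := by
    have h1 : Integrable (fun p : E × E => (‖v p.1‖ * (2 * C)) * kap δ p.2) (volume.prod volume) :=
      (hvi.norm.mul_const (2 * C)).mul_prod hki
    refine h1.mono' ?_ ?_
    · have m1 : AEStronglyMeasurable (fun p : E × E => v p.1) (volume.prod volume) :=
        hvi.aestronglyMeasurable.comp_fst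
      have m2 : Continuous (fun p : E × E => b p.1 - b (p.1 - p.2)) :=
        (hb.1.continuous.comp continuous_fst).sub
          (hb.1.continuous.comp (continuous_fst.sub continuous_snd))
      have m3 : Continuous (fun p : E × E => kap δ p.2) :=
        (kap_contDiff hδ).continuous.comp continuous_snd
      exact m3.aestronglyMeasurable.mul (m1.inner m2.aestronglyMeasurable)
    · refine Eventually.of_forall fun p => ?_
      rw [norm_mul, Real.norm_eq_abs, abs_of_nonneg (kap_nonneg hδ _), mul_comm]
      have h2 : ‖⟪v p.1, b p.1 - b (p.1 - p.2)⟫‖ ≤ ‖v p.1‖ * (2 * C) := by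
        refine (norm_inner_le_norm _ _).trans ?_
        gcongr
        calc ‖b p.1 - b (p.1 - p.2)‖ ≤ ‖b p.1‖ + ‖b (p.1 - p.2)‖ := norm_sub_le _ _
          _ ≤ C + C := add_le_add (hC _) (hC _)
          _ = 2 * C := by ring
      exact mul_le_mul_of_nonneg_right h2 (kap_nonneg hδ _)
  have e2 : ip v (fun x => b x - mol δ b x)
      = ∫ y, kap δ y * ip v (fun x => b x - b (x - y)) := by
    unfold ip
    simp only [e1]
    rw [integral_integral_swap hint]
    simp only [integral_const_mul]
  rw [e2, ← Real.norm_eq_abs]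
  have hK : 0 ≤ √(sq v) * √(sq (curl b)) := by positivity
  calc ‖∫ y, kap δ y * ip v (fun x => b x - b (x - y))‖
      ≤ ∫ y, kap δ y * (δ * (√(sq v) * √(sq (curl b)))) := by
        apply norm_integral_le_of_norm_le (hki.mul_const _)
        refine Eventually.of_forall fun y => ?_
        rw [norm_mul, Real.norm_eq_abs, abs_of_nonneg (kap_nonneg hδ _), Real.norm_eq_abs]
        by_cases hy : δ ≤ ‖y‖
        · rw [kap_eq_zero hδ hy]; simp
        · have h3 := abs_ip_shift_le hv hR hd hb y
          have h4 : ‖y‖ * (√(sq v) * √(sq (curl b))) ≤ δ * (√(sq v) * √(sq (curl b))) := by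
            gcongr
            exact (not_le.1 hy).le
          exact mul_le_mul_of_nonneg_left (h3.trans h4) (kap_nonneg hδ _)
    _ = δ * (√(sq v) * √(sq (curl b))) := by
        rw [integral_mul_const, integral_kap hδ, one_mul]

end Pool.Agent.Helper41.Curl
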